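import Mathlib
import Pool.Agent.X269.HG.Final

/-!
# Smooth subvarieties with many commuting homologies

Let `X ⊂ ℙ^N` be a nonsingular irreducible closed subvariety of codimension `r`, and let `m ≥ 2` and
`2 r ≤ s ≤ N + 1`. Suppose that `X` is stable under the homologies `x_i ↦ ε x_i`, `ε^m = 1`,
`i < s`, and that `X` is cut out scheme-theoretically by forms of degree less than `2 m`, at least at
the points of the linear subspace `x_s = … = x_N = 0`. Then `X` is a complete intersection of `r`
hypersurfaces, of degrees `1`, `m` or `m + 1`.

Idea of the proof. The ideal of `X` is generated by the coordinates `x_i`, `i < s`, which vanish on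
`X` and by an ideal `J` of polynomials in `w_i = x_i ^ m` and the other coordinates `y`. Eliminating
coordinates we may suppose that no element of `J` has a linear part. Then the elements of weight
`m + 1` are `∑ w_i b_i(y) + A(y)` with linear forms `b_i`; for all `w ≠ 0` the linear forms
`∑ w_i b_i` span a space of the same dimension `ρ`. If one of these bilinear forms vanishes for one
`w ≠ 0` but not for all, a dimension count at a general point of `X` gives `s < 2 ρ`. So there are
`ρ` elements whose bilinear parts are linearly independent for all `w ≠ 0`. These bilinear parts are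
a regular sequence, and they generate the ideal of the parts of highest degree in `w` of the elements
of `J`, by unmixedness and since `J` is closed under the Jacobian determinants of order `ρ + 1`.
-/

set_option autoImplicit false

namespace Pool.Agent.Results.MP_014caa_ag.CommutingHomologies

open MvPolynomial

/-- The polynomial ring `ℂ[x_0, …, x_N]`. -/
abbrev Poly (N : ℕ) : Type := MvPolynomial (Fin (N + 1)) ℂ

/-- The gradient of the polynomial `F` at the point `x`. -/
noncomputable def grad {N : ℕ} (F : Poly N) (x : Fin (N + 1) → ℂ) : Fin (N + 1) → ℂ :=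
  fun i => eval x (pderiv i F)

/-- The common zeros in `ℂ^(N + 1)` of the polynomials in `I`: the affine cone over the projective
variety `X` when `I` is the homogeneous ideal of `X`. -/
def cone {N : ℕ} (I : Ideal (Poly N)) : Set (Fin (N + 1) → ℂ) := {x | ∀ F ∈ I, eval x F = 0}

/-- The conormal space of `X` at `x`: the span of the gradients at `x` of the elements of `I`. -/
noncomputable def conormal {N : ℕ} (I : Ideal (Poly N)) (x : Fin (N + 1) → ℂ) :
    Submodule ℂ (Fin (N + 1) → ℂ) :=
  Submodule.span ℂ {ξ | ∃ F ∈ I, ξ = grad F x}

/-- `I` is the homogeneous ideal of a nonsingular irreducible closed subvariety `X` of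
codimension `r` of the complex projective space `ℙ^N`: it is a homogeneous prime ideal, `X` is not
empty, and at every point of `X` the gradients of the elements of `I` span a space of dimension `r`
(Jacobian criterion). -/
structure IsSmoothVariety (N r : ℕ) (I : Ideal (Poly N)) : Prop where
  prime : I.IsPrime
  homogeneous : ∀ F ∈ I, ∀ d, homogeneousComponent d F ∈ I
  nonempty : ∃ x ∈ cone I, x ≠ 0
  smooth : ∀ x ∈ cone I, x ≠ 0 → Module.finrank ℂ (conormal I x) = r

/-- `X` is stable under the multiplication of each of the coordinates `x_i`, `i < s`, by the `m`-th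
roots of unity. -/
def IsStable (N s m : ℕ) (I : Ideal (Poly N)) : Prop :=
  ∀ t : Fin (N + 1) → ℂ, (∀ i, i.1 < s → t i ^ m = 1) → (∀ i, s ≤ i.1 → t i = 1) →
    ∀ F ∈ I, aeval (fun i => C (t i) * X i : Fin (N + 1) → Poly N) F ∈ I

/-- `X` is cut out scheme-theoretically at the point `z` by forms of degree less than `e`: if `z`
is not a point of `X`, then one of the elements of `I` of degree less than `e` does not vanish at
`z`; if `z` is a point of `X`, then the gradients at `z` of the elements of `I` of degree less than
`e` span the conormal space of `X`. -/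
def IsCutOutAt {N : ℕ} (e : ℕ) (z : Fin (N + 1) → ℂ) (I : Ideal (Poly N)) : Prop :=
  (z ∉ cone I → ∃ F ∈ I, F.totalDegree < e ∧ eval z F ≠ 0) ∧
  (z ∈ cone I → conormal I z ≤ Submodule.span ℂ {ξ | ∃ F ∈ I, F.totalDegree < e ∧ ξ = grad F z})

/-- `X` is a complete intersection of `r` hypersurfaces with degrees in the set `D`: there are forms
`F_1, …, F_r` of degrees in `D` with `X = V(F_1, …, F_r)`, with linearly independent differentials at
every point of `X`, and generating the homogeneous ideal `I` of `X`. -/
def IsCompleteIntersection (N r : ℕ) (D : Set ℕ) (I : Ideal (Poly N)) : Prop :=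
  ∃ F : Fin r → Poly N, (∀ i, ∃ d ∈ D, (F i).IsHomogeneous d) ∧
    (∀ x, x ∈ cone I ↔ ∀ i, eval x (F i) = 0) ∧
    (∀ x ∈ cone I, x ≠ 0 → LinearIndependent ℂ (fun i => grad (F i) x)) ∧
    I = Ideal.span (Set.range F)

theorem result {N r m s : ℕ} (hm : 2 ≤ m) (hr : 2 * r ≤ s) (hs : s ≤ N + 1)
    (I : Ideal (Poly N)) (hI : IsSmoothVariety N r I)
    -- `X` is stable under the homologies `x_i ↦ ε x_i`, `ε ^ m = 1`, `i < s`
    (hst : IsStable N s m I)
    -- `X` is cut out by forms of degree less than `2 m` at the points with `x_i = 0` for `i ≥ s`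
    (hcut : ∀ z : Fin (N + 1) → ℂ, z ≠ 0 → (∀ i, s ≤ i.1 → z i = 0) → IsCutOutAt (2 * m) z I) :
    IsCompleteIntersection N r {1, m, m + 1} I := by
  have hη : IsPrimitiveRoot (Complex.exp (2 * Real.pi * Complex.I / (m : ℕ))) m :=
    Complex.isPrimitiveRoot_exp m (by omega)
  obtain ⟨F, hF, h1, h2, h3⟩ := Pool.Agent.X269.HG.main hm hs hr hη I hI.prime hI.homogeneous
    hI.nonempty hI.smooth hst hcut
  refine ⟨F, fun i => ?_, h1, h2, h3⟩
  obtain ⟨d, hd, hFd⟩ := hF i
  exact ⟨d, hd, hFd⟩

end Pool.Agent.Results.MP_014caa_ag.CommutingHomologies
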