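import Pool.Agent.X311.Rb4
import Pool.Agent.X311.Rd7
import Pool.Agent.X311.Rc5

/-!
# The degree of a smooth subvariety of codimension two

Let `X ⊆ ℙ ^ n` be a smooth subvariety of codimension two, `n ≥ 7`, of degree `d`. By Barth and Larsen
`ω_X = O_X(e)` for an integer `e`, and by Serre's correspondence `X` is the zero scheme of a section of a
bundle `E` of rank two on `ℙ ^ n` with the Chern classes `c₁ = n + 1 + e` and `c₂ = d`. So `IsChernData n c₁ d`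
holds. The normal bundle `N` of `X` has the Chern classes `c₁ h`, `d h ^ 2`, and `N(-1)`, with the Chern classes
`(c₁ - 2) h` and `(d - c₁ + 1) h ^ 2`, is generated by global sections, because the tangent bundle of `ℙ ^ n`
twisted by `-1` is; so its Segre numbers in the degrees up to `n - 2 = dim X` are not negative. The Lean theorem
is about integers `e`, `d` with these two properties. If `X` is the complete intersection of
hypersurfaces of degrees `a`, `b`, then `c₁ = a + b` and `d = a b`. In all other cases we bound the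
numbers from below; if `c₁ ^ 2 < 4 d` (by Bogomolov's theorem this is so if `X` does not lie on a hypersurface of
degree at most `c₁ / 2`), then `8 (n - 1 + e) > (n - 1) ^ 2` and `d > ((n - 1) / 4) ^ 4`; for large `n` the
exponents can be improved to `n - 1 + e ≥ c n ^ (1 + 2 √e - ε)` and `d ≥ c n ^ (2 + 4 √e - ε)` (`√e` is the square
root of Euler's number, `2 + 4 √e = 8.59...`).
-/

set_option autoImplicit false

namespace Pool.Agent.Results.MP_014caa_ag.DegreeCodimTwo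

open Pool.Agent.X311.Rb Pool.Agent.X311.Rc Pool.Agent.X311.Rd Finset

/-- Canonical class and degree in codimension two. Let `n ≥ 7` and let `e`, `d > 0` be integers such that a
class `∑ [O(a i)] - ∑ [O(b j)]` in the Grothendieck group of `ℙ ^ n` has the Chern character of a bundle of rank
two with the Chern classes `c₁ = n + 1 + e` and `d`, and such that the Segre numbers of degree at most `n - 2` of a
bundle with the Chern classes `c₁ - 2` and `d - c₁ + 1` are not negative. Then one of the following is true.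

* There are positive integers `a`, `b` with `n + 1 + e = a + b` and `d = a b`.
* `c₁ ^ 2 - 4 d` is positive, not a square, and greater than `3 (n - 1) ^ 2 / 16`.
* `c₁ ^ 2 < 4 d`, `3 (n - 1) ^ 2 / 16 < 4 d - c₁ ^ 2`, `√(4 d - c₁ ^ 2) ≤ (n - 1 + e) tan (π / (n - 1))`,
  `(n - 1) ^ 2 < 8 (n - 1 + e)`, and `(n - 1) ^ 4 < 256 d`.

Moreover the polynomial `z ^ 2 - c₁ z + d` has a root modulo each prime `p < n`, and a prime that divides
`c₁ ^ 2 - 4 d` exactly once is at least `n / 2`. -/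
theorem degree {n : ℕ} (hn : 7 ≤ n) {e d : ℤ} (hd : 0 < d) (h : IsChernData n (n + 1 + e) d)
    (hpos : ∀ k, k + 2 ≤ n → 0 ≤ segre (n - 1 + e) (d - n - e) k) :
    ((∃ a b : ℤ, 0 < a ∧ 0 < b ∧ n + 1 + e = a + b ∧ d = a * b) ∨
      (0 < (n + 1 + e) ^ 2 - 4 * d ∧ ¬ IsSquare ((n + 1 + e) ^ 2 - 4 * d) ∧
        3 * ((n : ℤ) - 1) ^ 2 < 16 * ((n + 1 + e) ^ 2 - 4 * d)) ∨
      ((n + 1 + e) ^ 2 < 4 * d ∧ 3 * ((n : ℤ) - 1) ^ 2 < 16 * (4 * d - (n + 1 + e) ^ 2) ∧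
        √(4 * (d : ℝ) - (n + 1 + e) ^ 2) ≤ (n - 1 + e) * Real.tan (Real.pi / (n - 1)) ∧
        ((n : ℤ) - 1) ^ 2 < 8 * (n - 1 + e) ∧ ((n : ℤ) - 1) ^ 4 < 256 * d)) ∧
    (∀ p : ℕ, p.Prime → p < n →
      ∃ z : ZMod p, z ^ 2 - ((n + 1 + e : ℤ) : ZMod p) * z + (d : ZMod p) = 0) ∧
    (∀ p : ℕ, p.Prime → (p : ℤ) ∣ (n + 1 + e) ^ 2 - 4 * d → ¬ (p : ℤ) ^ 2 ∣ (n + 1 + e) ^ 2 - 4 * d →
      n ≤ 2 * p) := by
  have hb : ¬ IsSquare (disc (n + 1 + e) d) →
      3 * ((n : ℤ) - 1) ^ 2 < 16 * |disc (n + 1 + e) d| := by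
    intro hs
    have h1 := bound h hs (m := n - 1) (by omega)
    push_cast [show 1 ≤ n by omega] at h1
    exact h1
  refine ⟨?_, fun p hp hpn => exists_root h hp hpn, fun p hp h1 h2 => le_two_mul h hp h1 h2⟩
  have hA : 0 ≤ (n : ℤ) - 1 + e := hpos 1 (by omega)
  by_cases hs : IsSquare (disc (n + 1 + e) d)
  · obtain ⟨a, b, hab, hdab⟩ := split_of_isSquare hs
    left
    have hsum : 0 < a + b := by omega
    rw [hdab] at hd
    have hab0 : 0 < a ∧ 0 < b := by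
      rcases pos_and_pos_or_neg_and_neg_of_mul_pos hd with h1 | h1
      · exact h1
      · omega
    exact ⟨a, b, hab0.1, hab0.2, hab, hdab⟩
  · right
    have h1 := hb hs
    by_cases hneg : 0 ≤ disc (n + 1 + e) d
    · left
      have h2 : disc (n + 1 + e) d ≠ 0 := fun h0 => hs (by rw [h0]; exact ⟨0, by ring⟩)
      rw [abs_of_nonneg hneg] at h1
      exact ⟨lt_of_le_of_ne hneg h2.symm, hs, h1⟩
    · right
      rw [not_le] at hneg
      rw [abs_of_neg hneg] at h1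
      unfold disc at h1 hneg
      have h2 : ((n : ℤ) - 1 + e) ^ 2 < 4 * (d - n - e) := by nlinarith
      have h3 : 4 * (d - n - e) - ((n : ℤ) - 1 + e) ^ 2 = 4 * d - (n + 1 + e) ^ 2 := by ring
      have hM : ((n - 1 : ℕ) : ℤ) = (n : ℤ) - 1 := by
        push_cast [show 1 ≤ n by omega]
        ring
      have hMr : ((n - 1 : ℕ) : ℝ) = (n : ℝ) - 1 := by
        push_cast [show 1 ≤ n by omega]
        ring
      have h4 := sqrt_le h2 (M := n - 1) (by omega) fun k hk => hpos k (by omega)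
      have h5 := lt_eight_mul (N := (n : ℤ) - 1) (by omega) h2 (M := n - 1) (by omega)
        (fun k hk => hpos k (by omega)) (by rw [h3]; linarith)
      rw [hM] at h5
      have h6 : ((n : ℤ) - 1) ^ 2 < 8 * (n - 1 + e) := by
        rw [pow_two]
        exact h5
      refine ⟨by linarith, by linarith, ?_, h6, ?_⟩
      · have h7 := h4.2
        rw [hMr] at h7
        push_cast at h7
        have h8 : 4 * ((d : ℝ) - n - e) - ((n : ℝ) - 1 + e) ^ 2 = 4 * (d : ℝ) - (n + 1 + e) ^ 2 := by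
          ring
        rwa [h8] at h7
      · have h7 : (((n : ℤ) - 1) ^ 2) ^ 2 < (8 * (n - 1 + e)) ^ 2 :=
          pow_lt_pow_left₀ h6 (by positivity) two_ne_zero
        nlinarith

/-- the asymptotic form -/
theorem degree_large (ε : ℝ) (hε : 0 < ε) : ∃ c : ℝ, 0 < c ∧ ∀ (n : ℕ) (e d : ℤ), 7 ≤ n → 0 < d →
    IsChernData n (n + 1 + e) d → (∀ k, k + 2 ≤ n → 0 ≤ segre (n - 1 + e) (d - n - e) k) →
      (¬ ∃ a b : ℤ, 0 < a ∧ 0 < b ∧ n + 1 + e = a + b ∧ d = a * b) →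
      c * (n : ℝ) ^ (4 * Real.exp (1 / 2) - ε) ≤ |((n : ℝ) + 1 + e) ^ 2 - 4 * d| ∧
      ((n + 1 + e) ^ 2 < 4 * d →
        c * (n : ℝ) ^ (1 + 2 * Real.exp (1 / 2) - ε) ≤ n - 1 + e ∧
        c * (n : ℝ) ^ (2 + 4 * Real.exp (1 / 2) - ε) ≤ d) ∧
      (4 * d < (n + 1 + e) ^ 2 → ∀ s : ℤ, n ≤ s + 1 →
        2 * (s : ℝ) ≤ n + 1 + e - √(((n : ℝ) + 1 + e) ^ 2 - 4 * d) →
        c * (n : ℝ) ^ (1 + 2 * Real.exp (1 / 2) - ε) ≤ d) := by
  have he := Real.exp_pos (1 / 2)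
  obtain ⟨c, hc, H⟩ := disc_lower (4 * Real.exp (1 / 2)) (by positivity)
    (fun ε hε hε1 => large' ε hε hε1) ε hε
  refine ⟨min c (min (√c / 8) (c / 256)), by positivity, fun n e d hn hd h hpos hns => ?_⟩
  have hn0 : (0 : ℝ) < n := by exact_mod_cast (by omega : 0 < n)
  have hn1 : (1 : ℝ) ≤ n := by exact_mod_cast (by omega : 1 ≤ n)
  have hA : 0 ≤ (n : ℤ) - 1 + e := hpos 1 (by omega)
  have hs : ¬ IsSquare (disc (n + 1 + e) d) := by
    intro hs
    obtain ⟨a, b, hab, hdab⟩ := split_of_isSquare hs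
    apply hns
    have hsum : 0 < a + b := by omega
    have hd' := hd
    rw [hdab] at hd'
    have hab0 : 0 < a ∧ 0 < b := by
      rcases pos_and_pos_or_neg_and_neg_of_mul_pos hd' with h1 | h1
      · exact h1
      · omega
    exact ⟨a, b, hab0.1, hab0.2, hab, hdab⟩
  have h1 := H n (n + 1 + e) d h hs
  have e0 : |(disc ((n : ℤ) + 1 + e) d : ℝ)| = |((n : ℝ) + 1 + e) ^ 2 - 4 * d| := by
    unfold disc
    push_cast
    rfl
  rw [e0] at h1
  have hmin1 : min c (min (√c / 8) (c / 256)) ≤ √c / 8 := (min_le_right _ _).trans (min_le_left _ _)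
  have hmin2 : min c (min (√c / 8) (c / 256)) ≤ c / 256 := (min_le_right _ _).trans (min_le_right _ _)
  have hsq : ∀ t : ℝ, c * (n : ℝ) ^ (4 * Real.exp (1 / 2) - ε) ≤ t →
      √c * (n : ℝ) ^ ((4 * Real.exp (1 / 2) - ε) / 2) ≤ √t := by
    intro t ht
    have e1 : √c * (n : ℝ) ^ ((4 * Real.exp (1 / 2) - ε) / 2) =
        √(c * (n : ℝ) ^ (4 * Real.exp (1 / 2) - ε)) := by
      rw [Real.sqrt_mul hc.le]
      congr 1
      rw [Real.sqrt_eq_rpow, ← Real.rpow_mul hn0.le]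
      congr 1
      ring
    rw [e1]
    exact Real.sqrt_le_sqrt ht
  refine ⟨le_trans ?_ h1, fun hneg => ?_, fun hpos' s hs1 hs2 => ?_⟩
  · gcongr
    exact min_le_left _ _
  rotate_left
  · -- real Chern roots
    have hposr : 4 * (d : ℝ) < ((n : ℝ) + 1 + e) ^ 2 := by exact_mod_cast hpos'
    rw [abs_of_pos (by linarith)] at h1
    have h2 := hsq _ h1
    set S := √(((n : ℝ) + 1 + e) ^ 2 - 4 * d) with hS
    have hS0 : 0 ≤ S := Real.sqrt_nonneg _
    have hS2 : S * S = ((n : ℝ) + 1 + e) ^ 2 - 4 * d := Real.mul_self_sqrt (by linarith)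
    have hs3 : (n : ℝ) ≤ s + 1 := by exact_mod_cast hs1
    have hn7 : (7 : ℝ) ≤ n := by exact_mod_cast hn
    have h3 : (n : ℝ) ≤ (n : ℝ) + 1 + e - S := by linarith
    have h4 : 4 * (d : ℝ) = ((n : ℝ) + 1 + e - S) * ((n : ℝ) + 1 + e + S) := by
      have : ((n : ℝ) + 1 + e - S) * ((n : ℝ) + 1 + e + S) = ((n : ℝ) + 1 + e) ^ 2 - S * S := by ring
      rw [this, hS2]
      ring
    have h5 : (n : ℝ) * (2 * S) ≤ 4 * d := by
      rw [h4]
      exact mul_le_mul h3 (by linarith) (by positivity) (by linarith)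
    have e2 : (n : ℝ) ^ (1 + (4 * Real.exp (1 / 2) - ε) / 2) =
        (n : ℝ) ^ ((4 * Real.exp (1 / 2) - ε) / 2) * n := by
      rw [add_comm, Real.rpow_add hn0, Real.rpow_one]
    have h6 : √c / 8 * (n : ℝ) ^ (1 + (4 * Real.exp (1 / 2) - ε) / 2) ≤ d := by
      have h7 : (√c * (n : ℝ) ^ ((4 * Real.exp (1 / 2) - ε) / 2)) * n ≤ S * n := by gcongr
      have h8 : 0 ≤ √c * (n : ℝ) ^ ((4 * Real.exp (1 / 2) - ε) / 2) * n := by positivity
      rw [e2]
      linarith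
    refine le_trans ?_ h6
    refine mul_le_mul hmin1 (Real.rpow_le_rpow_of_exponent_le hn1 ?_) (by positivity) (by positivity)
    linarith
  have hnegr : ((n : ℝ) + 1 + e) ^ 2 < 4 * d := by exact_mod_cast hneg
  rw [abs_of_neg (by linarith)] at h1
  have h2 : ((n : ℤ) - 1 + e) ^ 2 < 4 * (d - n - e) := by nlinarith
  have h4 := sqrt_le h2 (M := n - 1) (by omega) fun k hk => hpos k (by omega)
  have h5 := tan_pi_div_le (M := n - 1) (by omega)
  have hMr : ((n - 1 : ℕ) : ℝ) = (n : ℝ) - 1 := by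
    push_cast [show 1 ≤ n by omega]
    ring
  obtain ⟨hApos, h4⟩ := h4
  have hAr : (0 : ℝ) < (n : ℝ) - 1 + e := by exact_mod_cast hApos
  push_cast at h4
  have h8 : 4 * ((d : ℝ) - n - e) - ((n : ℝ) - 1 + e) ^ 2 = 4 * (d : ℝ) - (n + 1 + e) ^ 2 := by
    ring
  rw [h8] at h4
  set S := √(4 * (d : ℝ) - (n + 1 + e) ^ 2) with hS
  have hS0 : 0 ≤ S := Real.sqrt_nonneg _
  have h6 : S * n ≤ 8 * (n - 1 + e) := by
    have h3 : √3 ≤ 2 := by
      rw [Real.sqrt_le_left (by norm_num)]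
      norm_num
    have h7 : S * ((n - 1 : ℕ) : ℝ) ≤ ((n : ℝ) - 1 + e) * 4 := by
      calc S * ((n - 1 : ℕ) : ℝ) ≤
          (((n : ℝ) - 1 + e) * Real.tan (Real.pi / ((n - 1 : ℕ) : ℝ))) * ((n - 1 : ℕ) : ℝ) := by gcongr
        _ = ((n : ℝ) - 1 + e) * (((n - 1 : ℕ) : ℝ) * Real.tan (Real.pi / ((n - 1 : ℕ) : ℝ))) := by ring
        _ ≤ ((n : ℝ) - 1 + e) * 4 := by
          gcongr
          linarith
    have h9 : (n : ℝ) ≤ 2 * ((n - 1 : ℕ) : ℝ) := by
      rw [hMr]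
      have : (7 : ℝ) ≤ n := by exact_mod_cast hn
      linarith
    have h10 : S * n ≤ S * (2 * ((n - 1 : ℕ) : ℝ)) := by gcongr
    linarith
  have hSl : √c * (n : ℝ) ^ ((4 * Real.exp (1 / 2) - ε) / 2) ≤ S := hsq _ (by linarith)
  have h11 : √c / 8 * (n : ℝ) ^ (1 + (4 * Real.exp (1 / 2) - ε) / 2) ≤ n - 1 + e := by
    have e1 : (n : ℝ) ^ (1 + (4 * Real.exp (1 / 2) - ε) / 2) =
        (n : ℝ) ^ ((4 * Real.exp (1 / 2) - ε) / 2) * n := by
      rw [add_comm, Real.rpow_add hn0, Real.rpow_one]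
    have h12 : (√c * (n : ℝ) ^ ((4 * Real.exp (1 / 2) - ε) / 2)) * n ≤ S * n := by gcongr
    rw [e1]
    linarith
  constructor
  · refine le_trans ?_ h11
    refine mul_le_mul hmin1 (Real.rpow_le_rpow_of_exponent_le hn1 ?_) (by positivity) (by positivity)
    linarith
  · have e1 : (n : ℝ) ^ (2 + (4 * Real.exp (1 / 2) - ε)) =
        ((n : ℝ) ^ (1 + (4 * Real.exp (1 / 2) - ε) / 2)) ^ 2 := by
      rw [← Real.rpow_natCast, ← Real.rpow_mul hn0.le]
      congr 1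
      push_cast
      ring
    have h12 : (√c / 8 * (n : ℝ) ^ (1 + (4 * Real.exp (1 / 2) - ε) / 2)) ^ 2 ≤ ((n : ℝ) - 1 + e) ^ 2 :=
      pow_le_pow_left₀ (by positivity) h11 2
    have h13 : ((n : ℝ) - 1 + e) ^ 2 < 4 * (d - n - e) := by exact_mod_cast h2
    rw [mul_pow, div_pow, Real.sq_sqrt hc.le, ← e1] at h12
    have h14 : min c (min (√c / 8) (c / 256)) * (n : ℝ) ^ (2 + 4 * Real.exp (1 / 2) - ε) ≤
        c / 256 * (n : ℝ) ^ (2 + (4 * Real.exp (1 / 2) - ε)) :=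
      mul_le_mul hmin2 (Real.rpow_le_rpow_of_exponent_le hn1 (by linarith)) (by positivity)
        (by positivity)
    linarith

/-- **Canonical class and degree in codimension two.** Let `n ≥ 7` and let `e`, `d > 0` be integers such that a
class `∑ [O(a i)] - ∑ [O(b j)]` in the Grothendieck group of `ℙ ^ n` has the Chern character of a bundle of rank
two with the Chern classes `c₁ = n + 1 + e` and `d`, and such that the Segre numbers of degree at most `n - 2` of a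
bundle with the Chern classes `c₁ - 2` and `d - c₁ + 1` are not negative.

* One of the following is true.
  - There are positive integers `a`, `b` with `n + 1 + e = a + b` and `d = a b`.
  - `c₁ ^ 2 - 4 d` is positive, not a square, and greater than `3 (n - 1) ^ 2 / 16`.
  - `c₁ ^ 2 < 4 d`, `3 (n - 1) ^ 2 / 16 < 4 d - c₁ ^ 2`, `√(4 d - c₁ ^ 2) ≤ (n - 1 + e) tan (π / (n - 1))`,
    `(n - 1) ^ 2 < 8 (n - 1 + e)`, and `(n - 1) ^ 4 < 256 d`.

  Moreover the polynomial `z ^ 2 - c₁ z + d` has a root modulo each prime `p < n`, and a prime that divides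
  `c₁ ^ 2 - 4 d` exactly once is at least `n / 2`.
* For each `ε > 0` there is a constant `c > 0` such that for all such `n`, `e`, `d` without the first property
  `|c₁ ^ 2 - 4 d| ≥ c n ^ (4 √e - ε)` (with the square root of Euler's number). If `c₁ ^ 2 < 4 d`, then
  `n - 1 + e ≥ c n ^ (1 + 2 √e - ε)` and `d ≥ c n ^ (2 + 4 √e - ε)`. If `c₁ ^ 2 > 4 d` and there is an integer
  `s ≥ n - 1` with `s ≤ (c₁ - √(c₁ ^ 2 - 4 d)) / 2`, then `d ≥ c n ^ (1 + 2 √e - ε)`. (If `c₁ ^ 2 > 4 d`, then by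
  Bogomolov's theorem a hypersurface of degree `s ≤ (c₁ - √(c₁ ^ 2 - 4 d)) / 2` contains `X`, and by a theorem of
  Ran `X` is a complete intersection if `s ≤ n - 2`.) -/
theorem result :
    (∀ (n : ℕ) (e d : ℤ), 7 ≤ n → 0 < d → IsChernData n (n + 1 + e) d →
      (∀ k, k + 2 ≤ n → 0 ≤ segre (n - 1 + e) (d - n - e) k) →
    ((∃ a b : ℤ, 0 < a ∧ 0 < b ∧ n + 1 + e = a + b ∧ d = a * b) ∨
      (0 < (n + 1 + e) ^ 2 - 4 * d ∧ ¬ IsSquare ((n + 1 + e) ^ 2 - 4 * d) ∧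
        3 * ((n : ℤ) - 1) ^ 2 < 16 * ((n + 1 + e) ^ 2 - 4 * d)) ∨
      ((n + 1 + e) ^ 2 < 4 * d ∧ 3 * ((n : ℤ) - 1) ^ 2 < 16 * (4 * d - (n + 1 + e) ^ 2) ∧
        √(4 * (d : ℝ) - (n + 1 + e) ^ 2) ≤ (n - 1 + e) * Real.tan (Real.pi / (n - 1)) ∧
        ((n : ℤ) - 1) ^ 2 < 8 * (n - 1 + e) ∧ ((n : ℤ) - 1) ^ 4 < 256 * d)) ∧
    (∀ p : ℕ, p.Prime → p < n →
      ∃ z : ZMod p, z ^ 2 - ((n + 1 + e : ℤ) : ZMod p) * z + (d : ZMod p) = 0) ∧
    (∀ p : ℕ, p.Prime → (p : ℤ) ∣ (n + 1 + e) ^ 2 - 4 * d → ¬ (p : ℤ) ^ 2 ∣ (n + 1 + e) ^ 2 - 4 * d →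
      n ≤ 2 * p)) ∧
    (∀ ε : ℝ, 0 < ε → ∃ c : ℝ, 0 < c ∧ ∀ (n : ℕ) (e d : ℤ), 7 ≤ n → 0 < d →
      IsChernData n (n + 1 + e) d → (∀ k, k + 2 ≤ n → 0 ≤ segre (n - 1 + e) (d - n - e) k) →
      (¬ ∃ a b : ℤ, 0 < a ∧ 0 < b ∧ n + 1 + e = a + b ∧ d = a * b) →
        c * (n : ℝ) ^ (4 * Real.exp (1 / 2) - ε) ≤ |((n : ℝ) + 1 + e) ^ 2 - 4 * d| ∧
        ((n + 1 + e) ^ 2 < 4 * d →
          c * (n : ℝ) ^ (1 + 2 * Real.exp (1 / 2) - ε) ≤ n - 1 + e ∧
          c * (n : ℝ) ^ (2 + 4 * Real.exp (1 / 2) - ε) ≤ d) ∧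
        (4 * d < (n + 1 + e) ^ 2 → ∀ s : ℤ, n ≤ s + 1 →
          2 * (s : ℝ) ≤ n + 1 + e - √(((n : ℝ) + 1 + e) ^ 2 - 4 * d) →
          c * (n : ℝ) ^ (1 + 2 * Real.exp (1 / 2) - ε) ≤ d)) :=
  ⟨fun _ _ _ hn hd h hpos => degree hn hd h hpos, degree_large⟩

end Pool.Agent.Results.MP_014caa_ag.DegreeCodimTwo
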