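import Mathlib
import Pool.Agent.X303.HC.Cut

/-!
# Codimension two: automorphisms with a large eigenspace have small order

Let `X ⊂ ℙ^N`, `N ≥ 3`, be a nonsingular irreducible closed subvariety of codimension two which is
the zero scheme of a section of a rank two bundle `E` (for `N ≥ 6` every nonsingular `X` of
codimension two is of this form, by the theorems of Barth-Larsen and Serre), and suppose that `X` is
not a complete intersection.  Let `X` be cut out scheme-theoretically by forms of degree `k`, and let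
`c = c₁(E)`.  Then `2 ≤ c < 2 k`.

Let `g` be a linear automorphism of `X` which has an eigenspace of dimension at least three, with
eigenvalue `l` (for instance a homology `x_0 ↦ ζ x_0`).  Then `m / l` is a root of unity of order at
most `max (c, 2 k - c) ≤ 2 k - 1`, for every eigenvalue `m` of `g`.

The starting results on automorphisms of `X` bound orders by `(2 k)^N`.
-/

set_option autoImplicit false

namespace Pool.Agent.Results.MP_014caa_ag.HomologyOrders

open MvPolynomial H960VB Pool.Agent.X303.HC Pool.Agent.X303.HC.Var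

/-- `l` is an eigenvalue of `g` -/
def IsEigenvalue {N : ℕ} (g : Matrix (Fin (N + 1)) (Fin (N + 1)) ℂ) (l : ℂ) : Prop :=
  ∃ x : Fin (N + 1) → ℂ, x ≠ 0 ∧ g.mulVec x = l • x

/-- **Automorphisms with a large eigenspace have small order.** -/
theorem result {N : ℕ} (hN : 3 ≤ N) (I : Ideal (MvPolynomial (Fin (N + 1)) ℂ))
    (hI : IsSmoothVariety N 2 I)
    -- `X` is the zero scheme of a section of a rank two bundle
    (E : Bundle2 N) (s : Fin E.a → MvPolynomial (Fin (N + 1)) ℂ) (hs : IsZeroScheme E s I)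
    (hX : ¬ IsCompleteIntersection N 2 I)
    -- equations of degree `k`
    (k : ℕ) (hk : IsCutOutBy k I) :
    ∃ c : ℤ, IsChern E c ∧ 2 ≤ c ∧ c < 2 * k ∧
      ∀ g : Matrix (Fin (N + 1)) (Fin (N + 1)) ℂ, Preserves g I → ∀ l m : ℂ,
        3 ≤ Module.finrank ℂ (LinearMap.ker (g.mulVecLin - l • LinearMap.id)) →
        IsEigenvalue g m →
        ∃ j : ℕ, 0 < j ∧ (j : ℤ) ≤ max c (2 * k - c) ∧ (m / l) ^ j = 1 := by
  classical
  have hs0 : IsZeroSchemeOf E 0 s I := hs
  have Z₀ := zs hI hs
  have Z := zs hI (zeroScheme_twist hs0)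
  have hE : ¬ E.Splits := fun h => hX (ci_of_splits (by omega) hI hs h)
  obtain ⟨W⟩ := H938TB.exists_wedge (by omega : 1 ≤ N) (Pool.Agent.W615.triv E)
  have h2 := kappa_two Z₀ W hN
  have h3 := kappa_lt (by omega) Z₀ W hk hE
  have hc : IsChern E W.κ.1 := fun A B hAB =>
    ⟨Pool.Agent.H106R3.VB.splitsOn_exists E hAB,
      fun a b hs => (Pool.Agent.W467.FX.kappa_of_line W hAB hs).symm⟩
  refine ⟨W.κ.1, hc, h2, h3, ?_⟩
  intro g hg l m hl hm
  obtain ⟨Φ, μ, hΦ, -, -⟩ := exists_isLift (by omega) Z hI.homogeneous hg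
  by_cases hml : m = l
  · refine ⟨1, one_pos, ?_, ?_⟩
    · have := le_max_left W.κ.1 (2 * (k : ℤ) - W.κ.1)
      push_cast
      omega
    · obtain ⟨x, hx, hx'⟩ := hm
      have hl0 : l ≠ 0 := by
        rintro rfl
        rw [hml, zero_smul] at hx'
        apply hx
        have h1 := (Matrix.mulVec_injective_iff_isUnit.2 hg.1) (hx'.trans (Matrix.mulVec_zero g).symm)
        exact h1
      rw [hml, div_self hl0, pow_one]
  obtain ⟨c, hc', -, h⟩ :=
    Pool.Agent.Results.MP_745d3a_ag.FiniteSymmetry.result (by omega : 1 ≤ N) E hE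
  have hcc : c = W.κ.1 := IsChern.unique (E := E) (by omega) hc' hc
  obtain ⟨P, hP0, hP⟩ := hm
  have hPe : P ∈ Pool.Agent.Results.MP_745d3a_ag.FiniteSymmetry.eigen g m := by
    unfold Pool.Agent.Results.MP_745d3a_ag.FiniteSymmetry.eigen
    rw [LinearMap.mem_ker, LinearMap.sub_apply, LinearMap.smul_apply, LinearMap.id_apply,
      sub_eq_zero, Matrix.mulVecLin_apply]
    exact hP
  obtain ⟨j, hj, hjb, hj1⟩ := (h g Φ hg.1 hΦ l m hml hl).2.2 P hPe hP0 _
    (gen_of_cut (by omega) Z₀ W hk)
  refine ⟨j, hj, ?_, hj1⟩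
  rw [hcc] at hjb
  rcases le_total (k : ℤ) W.κ.1 with h4 | h4
  · rw [max_eq_right h4] at hjb
    have := le_max_left W.κ.1 (2 * (k : ℤ) - W.κ.1)
    omega
  · rw [max_eq_left h4] at hjb
    have := le_max_right W.κ.1 (2 * (k : ℤ) - W.κ.1)
    omega

end Pool.Agent.Results.MP_014caa_ag.HomologyOrders
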