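import Mathlib
import Pool.Agent.X303.HC.Loc3

/-!
# Codimension two: nonsingular subvarieties with two or three diagonal symmetries

Let `X ⊂ ℙ^N`, `N ≥ 3`, be a nonsingular irreducible closed subvariety of codimension two which is
the zero scheme of a section of a rank two bundle `E` (for `N ≥ 6` every nonsingular `X` of
codimension two is of this form, by the theorems of Barth-Larsen and Serre), and let `c` be the first
Chern class of `E`; so `ω_X = O_X(c - N - 1)`.  Suppose that `X` is not a complete intersection.  Let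
`ζ ≠ 1` be a complex number and let `i`, `j`, `k` be three different coordinates.

(1) Suppose that `X` is stable under the multiplication of each of the coordinates `i`, `j`, `k` by
`ζ`, and let `e` be the coordinate point `i`.  If `e` is not on `X`, then `ζ ^ c = 1`, and all the
lines through `e` have a splitting type `(p, q)` with `ζ ^ p = ζ ^ q = 1`.  If `e` is on `X`, then
`ζ ^ (c - 2) = 1` and `ζ ^ p = ζ ^ q = ζ` for all these lines.

(2) Suppose that `N ≥ 4`, and that `X` is stable under the multiplication of the coordinate `i` by `ζ`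
and under the multiplication of the coordinates `j` and `k` by `ζ`.  Let `L` be the line joining the
coordinate points `j` and `k`.  If `L` is not contained in `X`, then `ζ ^ c = 1`, and
`ζ ^ p = ζ ^ q = 1` for the lines joining the points of `L` outside `X` to the points where the
coordinates `j`, `k` vanish.  If `L` is contained in `X`, then `ζ ^ (c - 2) = 1`, and
`ζ ^ p = ζ ^ q = ζ` for the lines joining the points of `L` to these points.

So if `ζ` is of order `m`, then `X` is a complete intersection unless `m` divides `c` or `c - 2`; for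
`m = 2` this says that `X` is a complete intersection if `c` is odd.

The automorphisms of `X` lift to `E` with the section as an eigenvector (this is a consequence of
Serre's correspondence, and is proved in the helper files), and the lifts compose up to constants,
so that the starting result `MP_745d3a_ag.AbelianSymmetry` applies: `ζ ^ (p - q) = 1`.  At a fixed
point outside `X` the eigenvalue of the section occurs on the fibre of `E`, and at a fixed point on
`X` the derivative of the section determines the action on the fibre.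
-/

set_option autoImplicit false

namespace Pool.Agent.Results.MP_014caa_ag.ThreeHomologies

open MvPolynomial H960VB Pool.Agent.X303.HC Pool.Agent.X303.HC.Var

/-- the multiplication of the coordinates in `S` by `ζ` -/
def scale {N : ℕ} (ζ : ℂ) (S : Finset (Fin (N + 1))) :
    Matrix (Fin (N + 1)) (Fin (N + 1)) ℂ :=
  Matrix.diagonal fun s => if s ∈ S then ζ else 1

/-- **Subvarieties of codimension two with two or three diagonal symmetries.** -/
theorem result {N : ℕ} (hN : 3 ≤ N) (I : Ideal (MvPolynomial (Fin (N + 1)) ℂ))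
    (hI : IsSmoothVariety N 2 I) (hX : ¬ IsCompleteIntersection N 2 I)
    -- `X` is the zero scheme of a section of a rank two bundle, of first Chern class `c`
    (E : Bundle2 N) (s : Fin E.a → MvPolynomial (Fin (N + 1)) ℂ) (hs : IsZeroScheme E s I)
    (c : ℤ) (hc : IsChern E c)
    (ζ : ℂ) (hζ : ζ ≠ 1) (i j k : Fin (N + 1)) (hij : i ≠ j) (hik : i ≠ k) (hjk : j ≠ k) :
    -- three homologies
    (Preserves (scale ζ {i}) I → Preserves (scale ζ {j}) I → Preserves (scale ζ {k}) I →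
      (Pi.single i 1 ∉ cone I → ζ ^ c = 1 ∧
        ∀ Q : Fin (N + 1) → ℂ, Q ≠ 0 → Q i = 0 → ∀ p q : ℤ, E.SplitsOn (Pi.single i 1) Q p q →
          ζ ^ p = 1 ∧ ζ ^ q = 1) ∧
      (Pi.single i 1 ∈ cone I → ζ ^ (c - 2) = 1 ∧
        ∀ Q : Fin (N + 1) → ℂ, Q ≠ 0 → Q i = 0 → ∀ p q : ℤ, E.SplitsOn (Pi.single i 1) Q p q →
          ζ ^ p = ζ ∧ ζ ^ q = ζ)) ∧
    -- two symmetries
    (4 ≤ N → Preserves (scale ζ {i}) I → Preserves (scale ζ {j, k}) I →
      (∀ P : Fin (N + 1) → ℂ, (∀ l, l ≠ j → l ≠ k → P l = 0) → P ∉ cone I → ζ ^ c = 1 ∧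
        ∀ Q : Fin (N + 1) → ℂ, Q ≠ 0 → Q j = 0 → Q k = 0 → ∀ p q : ℤ, E.SplitsOn P Q p q →
          ζ ^ p = 1 ∧ ζ ^ q = 1) ∧
      ((∀ P : Fin (N + 1) → ℂ, (∀ l, l ≠ j → l ≠ k → P l = 0) → P ∈ cone I) →
        ζ ^ (c - 2) = 1 ∧
        ∀ P : Fin (N + 1) → ℂ, P ≠ 0 → (∀ l, l ≠ j → l ≠ k → P l = 0) →
          ∀ Q : Fin (N + 1) → ℂ, Q ≠ 0 → Q j = 0 → Q k = 0 → ∀ p q : ℤ, E.SplitsOn P Q p q →
            ζ ^ p = ζ ∧ ζ ^ q = ζ)) := by
  classical
  have hs0 : IsZeroSchemeOf E 0 s I := hs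
  have Z₀ := zs hI hs
  have Z := zs hI (zeroScheme_twist hs0)
  have hE : ¬ E.Splits := fun h => hX (ci_of_splits (by omega) hI hs h)
  have hall : ∀ g, Preserves (diagRep Z hI.homogeneous g) I := fun g => g.2
  obtain ⟨Φ, hΦ⟩ := exists_symmetry hN Z hI.homogeneous (diagRep Z hI.homogeneous) hall
  have hex : ∀ {ζ : ℂ} {S : Finset (Fin (N + 1))}, Preserves (scale ζ S) I →
      ∃ g, diagRep Z hI.homogeneous g =
        Pool.Agent.Results.MP_745d3a_ag.AbelianSymmetry.scale ζ S :=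
    fun h => exists_diag Z hI.homogeneous h
  have hζ0 : ∀ {S : Finset (Fin (N + 1))}, S.Nonempty → Preserves (scale ζ S) I → ζ ≠ 0 := by
    rintro S ⟨a, ha⟩ h rfl
    have h1 := (Matrix.isUnit_iff_isUnit_det _).1 h.1
    unfold scale at h1
    rw [Matrix.det_diagonal] at h1
    exact h1.ne_zero (Finset.prod_eq_zero (Finset.mem_univ a) (if_pos ha))
  -- a joining line and the first Chern class
  have hline : ∀ P Q : Fin (N + 1) → ℂ, LinearIndependent ℂ ![P, Q] →
      ∃ p q : ℤ, E.SplitsOn P Q p q ∧ p + q = c := by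
    intro P Q h
    obtain ⟨⟨a, b, hab⟩, h2⟩ := hc P Q h
    exact ⟨a, b, hab, h2 a b hab⟩
  have hli : ∀ (P Q : Fin (N + 1) → ℂ) (a b : Fin (N + 1)), P a ≠ 0 → Q a = 0 → Q b ≠ 0 →
      LinearIndependent ℂ ![P, Q] := by
    intro P Q a b hPa hQa hQb
    rw [LinearIndependent.pair_iff]
    intro x y h
    have h1 := congrFun h a
    simp only [Pi.add_apply, Pi.smul_apply, smul_eq_mul, hQa, mul_zero, add_zero,
      Pi.zero_apply] at h1
    have hx : x = 0 := (mul_eq_zero.1 h1).resolve_right hPa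
    have h2 := congrFun h b
    simp only [Pi.add_apply, Pi.smul_apply, smul_eq_mul, hx, zero_mul, zero_add,
      Pi.zero_apply] at h2
    exact ⟨hx, (mul_eq_zero.1 h2).resolve_right hQb⟩
  have hexp : ∀ {p q : ℤ}, ζ ≠ 0 → ζ ^ p = ζ → ζ ^ q = ζ → ζ ^ (p + q - 2) = 1 := by
    intro p q h0 h1 h2
    rw [zpow_sub₀ h0, zpow_add₀ h0, h1, h2]
    have h3 : ζ ^ (2 : ℤ) = ζ * ζ := by
      rw [show (2 : ℤ) = 1 + 1 by norm_num, zpow_add₀ h0, zpow_one]
    rw [h3, div_self (mul_ne_zero h0 h0)]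
  refine ⟨?_, ?_⟩
  · intro h1 h2 h3
    have h0 : ζ ≠ 0 := hζ0 (Finset.singleton_nonempty i) h1
    have key : ∀ Q : Fin (N + 1) → ℂ, Q ≠ 0 → Q i = 0 → ∀ p q : ℤ,
        E.SplitsOn (Pi.single i 1) Q p q → ζ ^ p = ζ ^ q ∧
        (Pi.single i 1 ∉ cone I → ζ ^ p = 1 ∨ ζ ^ q = 1) ∧
        (Pi.single i 1 ∈ cone I → ζ ^ p = ζ ∧ ζ ^ q = ζ) := by
      intro Q hQ0 hQi p q hpq
      refine ⟨zpow_pair h0 ?_, homology_types hN Z₀ hI.homogeneous hE hζ h1.1 h1.2 hQ0 hQi hpq⟩
      by_contra hne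
      exact hE (Pool.Agent.Results.MP_745d3a_ag.AbelianSymmetry.three_homologies E _ Φ hΦ hN ζ i j k
        hij hik hjk (hex h1) (hex h2) (hex h3) Q hQ0 hQi p q hpq hne)
    obtain ⟨p, q, hpq, hsum⟩ := hline (Pi.single i 1) (Pi.single j 1)
      (hli _ _ i j (by simp) (Pi.single_eq_of_ne hij _) (by simp))
    have hj0 : (Pi.single j 1 : Fin (N + 1) → ℂ) ≠ 0 := fun h => by simpa using congrFun h j
    have hk := key _ hj0 (Pi.single_eq_of_ne hij _) p q hpq
    refine ⟨fun hi => ⟨?_, fun Q hQ0 hQi p q hpq => ?_⟩, fun hi => ⟨?_, fun Q hQ0 hQi p q hpq =>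
      (key Q hQ0 hQi p q hpq).2.2 hi⟩⟩
    · rw [← hsum, zpow_add₀ h0]
      rcases hk.2.1 hi with h | h
      · rw [← hk.1, h, mul_one]
      · rw [hk.1, h, mul_one]
    · have hk' := key Q hQ0 hQi p q hpq
      rcases hk'.2.1 hi with h | h
      · exact ⟨h, hk'.1 ▸ h⟩
      · exact ⟨hk'.1.trans h, h⟩
    · obtain ⟨e1, e2⟩ := hk.2.2 hi
      rw [← hsum]
      exact hexp h0 e1 e2
  · intro h4 h1 h2
    have h0 : ζ ≠ 0 := hζ0 (Finset.singleton_nonempty i) h1
    have key : ∀ P : Fin (N + 1) → ℂ, P ≠ 0 → (∀ l, l ≠ j → l ≠ k → P l = 0) →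
        ∀ Q : Fin (N + 1) → ℂ, Q ≠ 0 → Q j = 0 → Q k = 0 → ∀ p q : ℤ,
        E.SplitsOn P Q p q → ζ ^ p = ζ ^ q ∧ (P ∉ cone I → ζ ^ p = 1 ∨ ζ ^ q = 1) := by
      intro P hP0 hP Q hQ0 hQj hQk p q hpq
      refine ⟨zpow_pair h0 ?_,
        (pair_types h4 Z₀ hI.homogeneous hE hζ hjk h2.1 h2.2 hP0 hP hQ0 hQj hQk hpq).1⟩
      by_contra hne
      exact hE (two_matrices' E _ Φ hΦ h4 ζ i j k hij hik hjk (hex h1) (hex h2) P hP0 hP
        Q hQ0 hQj hQk p q hpq hne)
    have hi0 : (Pi.single i 1 : Fin (N + 1) → ℂ) ≠ 0 := fun h => by simpa using congrFun h i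
    have hij0 : (Pi.single i 1 : Fin (N + 1) → ℂ) j = 0 := Pi.single_eq_of_ne hij.symm _
    have hik0 : (Pi.single i 1 : Fin (N + 1) → ℂ) k = 0 := Pi.single_eq_of_ne hik.symm _
    refine ⟨fun P hP hPI => ?_, fun hL => ?_⟩
    · have hP0 : P ≠ 0 := by
        rintro rfl
        exact hPI Z₀.zero_mem
      have hfin : ∀ Q : Fin (N + 1) → ℂ, Q ≠ 0 → Q j = 0 → Q k = 0 → ∀ p q : ℤ,
          E.SplitsOn P Q p q → ζ ^ p = 1 ∧ ζ ^ q = 1 := by
        intro Q hQ0 hQj hQk p q hpq
        have hk' := key P hP0 hP Q hQ0 hQj hQk p q hpq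
        rcases hk'.2 hPI with h | h
        · exact ⟨h, hk'.1 ▸ h⟩
        · exact ⟨hk'.1.trans h, h⟩
      refine ⟨?_, hfin⟩
      have hli' : LinearIndependent ℂ ![P, Pi.single i 1] := by
        by_cases hPj : P j = 0
        · have hPk : P k ≠ 0 := by
            intro hPk
            apply hP0
            funext l
            by_cases h5 : l = j
            · rw [h5]; exact hPj
            by_cases h6 : l = k
            · rw [h6]; exact hPk
            · exact hP l h5 h6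
          exact hli _ _ k i hPk hik0 (by simp)
        · exact hli _ _ j i hPj hij0 (by simp)
      obtain ⟨p, q, hpq, hsum⟩ := hline P (Pi.single i 1) hli'
      obtain ⟨e1, e2⟩ := hfin _ hi0 hij0 hik0 p q hpq
      rw [← hsum, zpow_add₀ h0, e1, e2, mul_one]
    · have hfin : ∀ P : Fin (N + 1) → ℂ, P ≠ 0 → (∀ l, l ≠ j → l ≠ k → P l = 0) →
          ∀ Q : Fin (N + 1) → ℂ, Q ≠ 0 → Q j = 0 → Q k = 0 → ∀ p q : ℤ, E.SplitsOn P Q p q →
            ζ ^ p = ζ ∧ ζ ^ q = ζ := fun P hP0 hP Q hQ0 hQj hQk p q hpq =>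
        pair_line h4 Z₀ hI.homogeneous hE hζ hjk h2.1 h2.2 hL hP0 hP hQ0 hQj hQk hpq
      refine ⟨?_, hfin⟩
      have hj0 : (Pi.single j 1 : Fin (N + 1) → ℂ) ≠ 0 := fun h => by simpa using congrFun h j
      obtain ⟨p, q, hpq, hsum⟩ := hline (Pi.single j 1) (Pi.single i 1)
        (hli _ _ j i (by simp) hij0 (by simp))
      obtain ⟨e1, e2⟩ := hfin _ hj0 (fun l h5 _ => Pi.single_eq_of_ne h5 _) _ hi0 hij0 hik0 p q hpq
      rw [← hsum]
      exact hexp h0 e1 e2

end Pool.Agent.Results.MP_014caa_ag.ThreeHomologies
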